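import Mathlib

set_option autoImplicit false

namespace Pool.Agent.Results.MP_1c7d4c_an.DerivativesDominated

open Polynomial Finset

/-- The zeros: `n ≥ 1` reals, strictly increasing, in `[-1,1]`, symmetric about the origin. -/
def SymZeros (n : ℕ) (x : Fin n → ℝ) : Prop :=
  1 ≤ n ∧ StrictMono x ∧ (∀ j, -1 ≤ x j ∧ x j ≤ 1) ∧ ∀ j, x j = -x (Fin.rev j)

/-- `Q = (X - x_1) ⋯ (X - x_n)`. -/
noncomputable def QPoly (n : ℕ) (x : Fin n → ℝ) : ℝ[X] := ∏ j, (X - C (x j))

/-- Condition (a): `|Q^(k)(t)| ≤ Q^(k)(1)` for `k = 0, …, n` and `-1 < t < 1`. -/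
def CondA (n : ℕ) (Q : ℝ[X]) : Prop :=
  ∀ k : ℕ, k ≤ n → ∀ t : ℝ, -1 < t → t < 1 →
    |(derivative^[k] Q).eval t| ≤ (derivative^[k] Q).eval 1

/-- Property (D): `|Q(t + iy)| ≤ |Q(1 + iy)|` for `-1 ≤ t ≤ 1` and real `y`. -/
def PropD (Q : ℝ[X]) : Prop :=
  ∀ t y : ℝ, -1 ≤ t → t ≤ 1 →
    ‖aeval ((t : ℂ) + (y : ℂ) * Complex.I) Q‖ ≤ ‖aeval ((1 : ℂ) + (y : ℂ) * Complex.I) Q‖

/-! ### Coefficientwise domination -/

def Dom (P R : ℝ[X]) : Prop := ∀ k, |P.coeff k| ≤ R.coeff k

lemma Dom.mul {P R P' R' : ℝ[X]} (h : Dom P R) (h' : Dom P' R') : Dom (P * P') (R * R') := by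
  intro k
  rw [coeff_mul, coeff_mul]
  refine (Finset.abs_sum_le_sum_abs _ _).trans (Finset.sum_le_sum fun a _ => ?_)
  rw [abs_mul]
  exact mul_le_mul (h _) (h' _) (abs_nonneg _) ((abs_nonneg _).trans (h _))

lemma Dom.one : Dom 1 1 := by
  intro k
  rw [coeff_one]
  split_ifs <;> simp

lemma Dom.prod (f g : ℕ → ℝ[X]) (n : ℕ) (h : ∀ i < n, Dom (f i) (g i)) :
    Dom (∏ i ∈ range n, f i) (∏ i ∈ range n, g i) := by
  induction n with
  | zero => simpa using Dom.one
  | succ n ih =>
    rw [prod_range_succ, prod_range_succ]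
    exact (ih fun i hi => h i (by omega)).mul (h n (by omega))

noncomputable def quad (a b c : ℝ) : ℝ[X] := C a + C b * X + C c * X ^ 2

lemma quad_coeff (a b c : ℝ) (k : ℕ) :
    (quad a b c).coeff k = if k = 0 then a else if k = 1 then b else if k = 2 then c else 0 := by
  unfold quad
  rcases k with _ | _ | _ | k
  · simp
  · simp [coeff_C, coeff_X_pow]
  · simp [coeff_X_pow]
  · simp

lemma Dom.quad {a b c a' b' c' : ℝ} (h0 : |a| ≤ a') (h1 : |b| ≤ b') (h2 : |c| ≤ c') :
    Dom (quad a b c) (quad a' b' c') := by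
  intro k
  rw [quad_coeff, quad_coeff]
  split_ifs <;> simp_all

/-! ### Polynomials with natural coefficients, as lists -/

noncomputable def toP : List ℕ → ℝ[X]
  | [] => 0
  | a :: l => C (a : ℝ) + X * toP l

def addL : List ℕ → List ℕ → List ℕ
  | [], l => l
  | a :: l, [] => a :: l
  | a :: l, b :: m => (a + b) :: addL l m

def smulL (c : ℕ) : List ℕ → List ℕ
  | [] => []
  | a :: l => (c * a) :: smulL c l

def mulL : List ℕ → List ℕ → List ℕ
  | [], _ => []
  | a :: l, m => addL (smulL a m) (0 :: mulL l m)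

def powL (q : List ℕ) : ℕ → List ℕ
  | 0 => [1]
  | n + 1 => mulL q (powL q n)

def leL : List ℕ → List ℕ → Bool
  | [], _ => true
  | _ :: _, [] => false
  | a :: l, b :: m => Nat.ble a b && leL l m

lemma toP_add (l m : List ℕ) : toP (addL l m) = toP l + toP m := by
  induction l generalizing m with
  | nil => simp [addL, toP]
  | cons a l ih =>
    cases m with
    | nil => simp [addL, toP]
    | cons b m => simp only [addL, toP, ih, Nat.cast_add, map_add]; ring

lemma toP_smul (c : ℕ) (l : List ℕ) : toP (smulL c l) = C (c : ℝ) * toP l := by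
  induction l with
  | nil => simp [smulL, toP]
  | cons a l ih => simp only [smulL, toP, ih, Nat.cast_mul, map_mul]; ring

lemma toP_mul (l m : List ℕ) : toP (mulL l m) = toP l * toP m := by
  induction l with
  | nil => simp [mulL, toP]
  | cons a l ih =>
    simp only [mulL, toP, toP_add, toP_smul, ih, Nat.cast_zero, map_zero, zero_add]; ring

lemma toP_pow (q : List ℕ) (n : ℕ) : toP (powL q n) = toP q ^ n := by
  induction n with
  | zero => simp [powL, toP]
  | succ n ih => rw [powL, toP_mul, ih, pow_succ']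

lemma toP_coeff_nonneg (l : List ℕ) (k : ℕ) : 0 ≤ (toP l).coeff k := by
  induction l generalizing k with
  | nil => simp [toP]
  | cons a l ih =>
    rw [toP, coeff_add]
    rcases k with _ | k
    · simp
    · rw [coeff_X_mul]; simpa using ih k

lemma leL_coeff (l m : List ℕ) (h : leL l m = true) (k : ℕ) :
    (toP l).coeff k ≤ (toP m).coeff k := by
  induction l generalizing m k with
  | nil => simpa [toP] using toP_coeff_nonneg m k
  | cons a l ih =>
    cases m with
    | nil => simp [leL] at h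
    | cons b m =>
      simp only [leL, Bool.and_eq_true] at h
      rw [toP, toP, coeff_add, coeff_add]
      rcases k with _ | k
      · have := Nat.le_of_ble_eq_true h.1
        simpa using this
      · rw [coeff_X_mul, coeff_X_mul]
        simpa using ih m h.2 k

lemma leL_tail (l m : List ℕ) (h : leL l.tail m.tail = true) (k : ℕ) (hk : 1 ≤ k) :
    (toP l).coeff k ≤ (toP m).coeff k := by
  obtain ⟨k, rfl⟩ : ∃ j, k = j + 1 := ⟨k - 1, by omega⟩
  have key : ∀ l : List ℕ, (toP l).coeff (k + 1) = (toP l.tail).coeff k := by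
    intro l
    cases l with
    | nil => simp [toP]
    | cons a l => rw [toP, coeff_add, coeff_X_mul]; simp
  rw [key l, key m]
  exact leL_coeff _ _ h k

lemma toP_quad (a b c : ℕ) : toP [a, b, c] = quad a b c := by
  simp only [toP, quad]
  ring

/-! ### The example -/

/-- positive zeros `Z 0 < ⋯ < Z 50` -/
noncomputable def Z (i : ℕ) : ℝ := if i = 0 then 27/500 else 3637/5000 - (50 - (i : ℝ)) / 10^9

lemma Z_zero : Z 0 = 27/500 := by simp [Z]

lemma Z_succ (i : ℕ) : Z (i + 1) = 3637/5000 - (49 - (i : ℝ)) / 10^9 := by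
  simp only [Z, Nat.add_eq_zero_iff, one_ne_zero, and_false, if_false]
  push_cast
  ring

lemma Z_bounds (i : ℕ) (h : i < 50) :
    3637/5000 - 50/10^9 ≤ Z (i + 1) ∧ Z (i + 1) ≤ 3637/5000 := by
  rw [Z_succ]
  have h1 : (i : ℝ) + 1 ≤ 50 := by exact_mod_cast h
  have h2 : (0 : ℝ) ≤ i := by positivity
  constructor
  · have : (49 - (i:ℝ)) / 10^9 ≤ 50 / 10^9 := by
      apply div_le_div_of_nonneg_right _ (by positivity); linarith
    linarith
  · have : 0 ≤ (49 - (i:ℝ)) / 10^9 := by
      apply div_nonneg _ (by positivity); linarith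
    linarith

lemma Z_lt {i j : ℕ} (hij : i < j) (hj : j ≤ 50) : Z i < Z j := by
  obtain ⟨j, rfl⟩ : ∃ j', j = j' + 1 := ⟨j - 1, by omega⟩
  rcases i with _ | i
  · rw [Z_zero]
    have := (Z_bounds j (by omega)).1
    norm_num at this ⊢
    linarith
  · rw [Z_succ, Z_succ]
    have : (i : ℝ) < j := by exact_mod_cast (by omega : i < j)
    have : (49 - (j:ℝ)) / 10^9 < (49 - (i:ℝ)) / 10^9 := by
      apply div_lt_div_of_pos_right _ (by positivity); linarith
    linarith

lemma Z_pos (i : ℕ) (h : i ≤ 50) : 0 < Z i := by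
  rcases Nat.eq_zero_or_pos i with rfl | hi
  · rw [Z_zero]; norm_num
  · have := Z_lt hi h
    rw [Z_zero] at this
    linarith [(by norm_num : (0:ℝ) < 27/500)]

lemma Z_le (i : ℕ) (h : i ≤ 50) : Z i ≤ 1 := by
  rcases i with _ | i
  · rw [Z_zero]; norm_num
  · have := (Z_bounds i (by omega)).2
    linarith [(by norm_num : (3637/5000:ℝ) ≤ 1)]

/-- the zeros of the example -/
noncomputable def xs (j : Fin 102) : ℝ := if (j : ℕ) < 51 then -Z (50 - j) else Z (j - 51)

lemma xs_sym : SymZeros 102 xs := by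
  refine ⟨by norm_num, ?_, ?_, ?_⟩
  · intro a b hab
    have hab' : (a : ℕ) < b := hab
    have ha := a.2
    have hb := b.2
    unfold xs
    split_ifs with h1 h2 h2
    · have := Z_lt (i := 50 - b) (j := 50 - a) (by omega) (by omega)
      linarith
    · have := Z_pos (50 - a) (by omega)
      have := Z_pos (b - 51) (by omega)
      linarith
    · omega
    · exact Z_lt (by omega) (by omega)
  · intro j
    have hj := j.2
    unfold xs
    split_ifs with h
    · have := Z_pos (50 - j) (by omega)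
      have := Z_le (50 - j) (by omega)
      constructor <;> linarith
    · have := Z_pos (j - 51) (by omega)
      have := Z_le (j - 51) (by omega)
      constructor <;> linarith
  · intro j
    have hj := j.2
    unfold xs
    rw [Fin.val_rev]
    split_ifs with h1 h2 h2
    · omega
    · have : 102 - ((j : ℕ) + 1) - 51 = 50 - j := by omega
      rw [this]
    · have : 50 - (102 - ((j : ℕ) + 1)) = j - 51 := by omega
      rw [this]; ring
    · omega

/-- squares of the zeros -/
noncomputable def W (i : ℕ) : ℝ := Z i ^ 2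

lemma Q_eq : QPoly 102 xs = ∏ i ∈ range 51, (X ^ 2 - C (W i)) := by
  unfold QPoly
  have h1 : ∏ j : Fin 102, (X - C (xs j)) =
      ∏ j ∈ range (51 + 51), (X - C (if j < 51 then -Z (50 - j) else Z (j - 51))) := by
    rw [Finset.prod_range]
    rfl
  rw [h1, Finset.prod_range_add]
  have h2 : ∏ j ∈ range 51, (X - C (if j < 51 then -Z (50 - j) else Z (j - 51))) =
      ∏ j ∈ range 51, (X + C (Z j)) := by
    rw [← Finset.prod_range_reflect]
    apply Finset.prod_congr rfl
    intro j hj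
    rw [Finset.mem_range] at hj
    rw [if_pos (by omega)]
    have : 50 - (51 - 1 - j) = j := by omega
    rw [this, C_neg]; ring
  have h3 : ∏ j ∈ range 51, (X - C (if 51 + j < 51 then -Z (50 - (51 + j)) else Z (51 + j - 51))) =
      ∏ j ∈ range 51, (X - C (Z j)) := by
    apply Finset.prod_congr rfl
    intro j _
    rw [if_neg (by omega)]
    have : 51 + j - 51 = j := by omega
    rw [this]
  rw [h2, h3, ← Finset.prod_mul_distrib]
  apply Finset.prod_congr rfl
  intro j _
  rw [W, C_pow]; ring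

/-- derivative and Taylor coefficients -/
lemma deriv_eq (Q : ℝ[X]) (k : ℕ) (t : ℝ) :
    (derivative^[k] Q).eval t = (k.factorial : ℝ) * (Q.comp (X + C t)).coeff k := by
  rw [← taylor_apply, taylor_coeff, ← factorial_smul_hasseDeriv]
  simp

lemma Q_comp (t : ℝ) :
    (QPoly 102 xs).comp (X + C t) = ∏ i ∈ range 51, quad (t ^ 2 - W i) (2 * t) 1 := by
  rw [Q_eq, Polynomial.prod_comp]
  apply Finset.prod_congr rfl
  intro j _
  simp only [sub_comp, pow_comp, X_comp, C_comp, quad, map_sub, map_mul, map_pow, map_ofNat, map_one]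
  ring

lemma W_zero : W 0 = 729/250000 := by rw [W, Z_zero]; norm_num

/-- upper and lower bounds for the 50 large squares -/
lemma W_bounds (i : ℕ) (h : i < 50) : 529110/10^6 ≤ W (i + 1) ∧ W (i + 1) ≤ 529111/10^6 := by
  obtain ⟨h1, h2⟩ := Z_bounds i h
  have h0 : (0:ℝ) ≤ 3637/5000 - 50/10^9 := by norm_num
  unfold W
  constructor
  · have := pow_le_pow_left₀ h0 h1 2
    refine le_trans ?_ this
    norm_num
  · have := pow_le_pow_left₀ (h0.trans h1) h2 2
    refine le_trans this ?_
    norm_num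

lemma W_le (i : ℕ) (h : i < 51) : 0 < W i ∧ W i ≤ 529111/10^6 := by
  rcases i with _ | i
  · rw [W_zero]; norm_num
  · have := W_bounds i (by omega)
    exact ⟨lt_of_lt_of_le (by norm_num) this.1, this.2⟩

/-- Case A: `t²` not too small. -/
lemma dom_A (t : ℝ) (h1 : |t| ≤ 1) (h : 58222/10^6 ≤ t ^ 2) :
    Dom (∏ i ∈ range 51, quad (t ^ 2 - W i) (2 * t) 1)
      (∏ i ∈ range 51, quad (1 ^ 2 - W i) (2 * 1) 1) := by
  apply Dom.prod
  intro i hi
  obtain ⟨h2, h3⟩ := W_le i hi
  have h4 : t ^ 2 ≤ 1 := by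
    rw [← sq_abs]; nlinarith [abs_nonneg t]
  apply Dom.quad
  · rw [abs_le]
    constructor
    · norm_num at h h3 ⊢; linarith
    · linarith
  · rw [abs_mul]; norm_num; exact h1
  · simp

/-- scaled dominating lists for Case B -/
def LG : List ℕ := mulL [9970, 20000, 10000] (powL [4708, 20000, 10000] 50)
def LF1 : List ℕ := mulL [140, 2600, 10000] (powL [5292, 2600, 10000] 50)
def LF2 : List ℕ := mulL [554, 4826, 10000] (powL [5123, 4826, 10000] 50)

lemma le1 : leL LF1.tail LG.tail = true := by decide +kernel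
lemma le2 : leL LF2.tail LG.tail = true := by decide +kernel

lemma prod_scale (f : ℕ → ℝ[X]) :
    ∏ i ∈ range 51, (C (10000 : ℝ) * f i) = C ((10000 : ℝ) ^ 51) * ∏ i ∈ range 51, f i := by
  rw [Finset.prod_mul_distrib, Finset.prod_const, Finset.card_range, C_pow]

lemma C_mul_quad (c x y z : ℝ) : C c * quad x y z = quad (c * x) (c * y) (c * z) := by
  simp only [quad, map_mul]; ring

lemma prod_list_aux (q q' : List ℕ) (n : ℕ) :
    ∏ i ∈ range (n + 1), (if i = 0 then toP q' else toP q) =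
      toP (mulL q' (powL q n)) := by
  rw [Finset.prod_range_succ', toP_mul, toP_pow, if_pos rfl, mul_comm]
  congr 1
  rw [Finset.prod_congr rfl (g := fun _ => toP q)]
  · simp
  · intro i _
    rw [if_neg (by omega)]

lemma prod_list (q q' : List ℕ) :
    ∏ i ∈ range 51, (if i = 0 then toP q' else toP q) =
      toP (mulL q' (powL q 50)) := prod_list_aux q q' 50

/-- Case B, lower bound for the coefficients at `1`. -/
lemma dom_G : Dom (toP LG) (C ((10000 : ℝ) ^ 51) * ∏ i ∈ range 51, quad (1 ^ 2 - W i) (2 * 1) 1) := by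
  rw [← prod_scale, LG, ← prod_list]
  apply Dom.prod
  intro i hi
  obtain ⟨h2, h3⟩ := W_le i hi
  rw [C_mul_quad]
  split_ifs with h0
  · subst h0
    rw [toP_quad, W_zero]
    apply Dom.quad <;> norm_num
  · rw [toP_quad]
    apply Dom.quad
    · rw [abs_of_nonneg (by positivity)]
      push_cast
      linarith
    · norm_num
    · norm_num

/-- Case B, upper bound for the coefficients at `t`. -/
lemma dom_F (a b a' : ℕ) (t : ℝ) (ht : 20000 * |t| ≤ b)
    (h1 : 10000 * (529111/10^6 - t ^ 2) ≤ a)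
    (h2 : 10000 * (729/250000 - t ^ 2) ≤ a') (h3 : 10000 * (t ^ 2 - 729/250000) ≤ a')
    (h4 : t ^ 2 ≤ 529/1000) :
    Dom (C ((10000 : ℝ) ^ 51) * ∏ i ∈ range 51, quad (t ^ 2 - W i) (2 * t) 1)
      (toP (mulL [a', b, 10000] (powL [a, b, 10000] 50))) := by
  rw [← prod_scale, ← prod_list]
  apply Dom.prod
  intro i hi
  rw [C_mul_quad]
  have hb : |10000 * (2 * t)| ≤ (b : ℝ) := by
    rw [abs_mul, abs_mul, abs_of_pos (by norm_num : (0:ℝ) < 10000), abs_of_pos (by norm_num : (0:ℝ) < 2)]
    linarith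
  split_ifs with h0
  · subst h0
    rw [toP_quad, W_zero]
    apply Dom.quad
    · rw [abs_le]; constructor <;> linarith
    · exact hb
    · norm_num
  · obtain ⟨i, rfl⟩ : ∃ j, i = j + 1 := ⟨i - 1, by omega⟩
    obtain ⟨h5, h6⟩ := W_bounds i (by omega)
    rw [toP_quad]
    apply Dom.quad
    · rw [abs_le]
      have : (0:ℝ) ≤ a := Nat.cast_nonneg _
      constructor
      · linarith
      · have : t ^ 2 - W (i + 1) ≤ 0 := by norm_num at h4 h5 ⊢; linarith
        linarith
    · exact hb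
    · norm_num

lemma caseB_pos (t : ℝ) (h : t ^ 2 < 58222/10^6) (k : ℕ) (hk : 1 ≤ k) :
    |(∏ i ∈ range 51, quad (t ^ 2 - W i) (2 * t) 1).coeff k| ≤
      (∏ i ∈ range 51, quad (1 ^ 2 - W i) (2 * 1) 1).coeff k := by
  have hpos : (0 : ℝ) < 10000 ^ 51 := by positivity
  have hG := dom_G k
  rw [abs_of_nonneg (toP_coeff_nonneg _ _), coeff_C_mul] at hG
  have hF : (10000 : ℝ) ^ 51 * |(∏ i ∈ range 51, quad (t ^ 2 - W i) (2 * t) 1).coeff k| ≤
      (toP LG).coeff k := by
    have hs := sq_abs t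
    have habs := abs_nonneg t
    rcases le_total |t| (13/100) with h1 | h1
    · have := dom_F 5292 2600 140 t (by push_cast; linarith)
        (by push_cast; nlinarith) (by push_cast; nlinarith) (by push_cast; nlinarith)
        (by nlinarith) k
      rw [coeff_C_mul, abs_mul, abs_of_pos hpos] at this
      exact this.trans (leL_tail _ _ le1 k hk)
    · have h6 : |t| ≤ 4826/20000 := by
        by_contra hcon
        push Not at hcon
        have : (4826/20000 : ℝ) ^ 2 < |t| ^ 2 := by
          apply pow_lt_pow_left₀ hcon (by norm_num) (by norm_num)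
        rw [hs] at this
        norm_num at this h
        linarith
      have := dom_F 5123 4826 554 t (by push_cast; linarith)
        (by push_cast; nlinarith) (by push_cast; nlinarith) (by push_cast; linarith)
        (by linarith) k
      rw [coeff_C_mul, abs_mul, abs_of_pos hpos] at this
      exact this.trans (leL_tail _ _ le2 k hk)
  exact le_of_mul_le_mul_left (hF.trans hG) hpos

/-- `(p-u)^50 (u-e) ≤ a^50 v` by the exponential trick. -/
lemma exp_trick (p e u a v : ℝ) (ha : 0 < a) (hv : 0 < v) (h1 : 0 ≤ p - u)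
    (hsum : p - e = a + v) (hratio : a = 50 * v) : (p - u) ^ 50 * (u - e) ≤ a ^ 50 * v := by
  set h : ℝ := (p - u) / a - 1 with hh
  have e1 : p - u = a * (1 + h) := by rw [hh]; field_simp; ring
  have e2 : u - e = v * (1 - 50 * h) := by
    have : u - e = (a + v) - (p - u) := by linarith
    rw [this, e1, hratio]; ring
  have h2 : 0 ≤ 1 + h := by
    rw [hh]; have := div_nonneg h1 ha.le; linarith
  have h3 : 1 + h ≤ Real.exp h := by linarith [Real.add_one_le_exp h]
  have h4 : (1 + h) ^ 50 ≤ Real.exp (50 * h) := by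
    have := pow_le_pow_left₀ h2 h3 50
    rwa [← Real.exp_nat_mul] at this
  have h5 : 1 - 50 * h ≤ Real.exp (-(50 * h)) := by linarith [Real.add_one_le_exp (-(50 * h))]
  rw [e1, e2, mul_pow]
  have h6 : (1 + h) ^ 50 * (1 - 50 * h) ≤ 1 := by
    calc (1 + h) ^ 50 * (1 - 50 * h) ≤ (1 + h) ^ 50 * Real.exp (-(50 * h)) :=
          mul_le_mul_of_nonneg_left h5 (pow_nonneg h2 _)
      _ ≤ Real.exp (50 * h) * Real.exp (-(50 * h)) :=
          mul_le_mul_of_nonneg_right h4 (Real.exp_pos _).le
      _ = 1 := by rw [← Real.exp_add]; simp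
  calc a ^ 50 * (1 + h) ^ 50 * (v * (1 - 50 * h))
      = (a ^ 50 * v) * ((1 + h) ^ 50 * (1 - 50 * h)) := by ring
    _ ≤ (a ^ 50 * v) * 1 := mul_le_mul_of_nonneg_left h6 (by positivity)
    _ = a ^ 50 * v := mul_one _

lemma prod_upper (f : ℕ → ℝ) (c d : ℝ) (hf : ∀ i < 51, 0 ≤ f i) (h0 : f 0 ≤ d)
    (h : ∀ i < 50, f (i + 1) ≤ c) : ∏ i ∈ range 51, f i ≤ c ^ 50 * d := by
  have e : ∏ i ∈ range 51, f i = (∏ i ∈ range 50, f (i + 1)) * f 0 := Finset.prod_range_succ' f 50
  have hc : 0 ≤ c := (hf 1 (by norm_num)).trans (h 0 (by norm_num))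
  rw [e]
  apply mul_le_mul _ h0 (hf 0 (by norm_num)) (pow_nonneg hc _)
  calc ∏ i ∈ range 50, f (i + 1) ≤ ∏ i ∈ range 50, c :=
        Finset.prod_le_prod (fun i hi => hf _ (by have := Finset.mem_range.1 hi; omega))
          (fun i hi => h i (Finset.mem_range.1 hi))
    _ = c ^ 50 := by simp

lemma prod_lower (f : ℕ → ℝ) (c d : ℝ) (hc : 0 ≤ c) (hd : 0 ≤ d) (h0 : d ≤ f 0)
    (h : ∀ i < 50, c ≤ f (i + 1)) : c ^ 50 * d ≤ ∏ i ∈ range 51, f i := by
  have e : ∏ i ∈ range 51, f i = (∏ i ∈ range 50, f (i + 1)) * f 0 := Finset.prod_range_succ' f 50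
  rw [e]
  have e2 : c ^ 50 ≤ ∏ i ∈ range 50, f (i + 1) := by
    calc c ^ 50 = ∏ i ∈ range 50, c := by simp
      _ ≤ ∏ i ∈ range 50, f (i + 1) :=
        Finset.prod_le_prod (fun _ _ => hc) (fun i hi => h i (Finset.mem_range.1 hi))
  exact mul_le_mul e2 h0 hd ((pow_nonneg hc _).trans e2)

lemma coeff_zero_prod_quad (f g : ℕ → ℝ) :
    (∏ i ∈ range 51, quad (f i) (g i) 1).coeff 0 = ∏ i ∈ range 51, f i := by
  rw [coeff_zero_eq_eval_zero, eval_prod]
  apply Finset.prod_congr rfl
  intro i _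
  simp [quad]

lemma caseB_zero (t : ℝ) (h : t ^ 2 < 58222/10^6) :
    |(∏ i ∈ range 51, quad (t ^ 2 - W i) (2 * t) 1).coeff 0| ≤
      (∏ i ∈ range 51, quad (1 ^ 2 - W i) (2 * 1) 1).coeff 0 := by
  rw [coeff_zero_prod_quad (fun i => t ^ 2 - W i) (fun _ => 2 * t),
    coeff_zero_prod_quad (fun i => 1 ^ 2 - W i) (fun _ => 2 * 1), Finset.abs_prod]
  have h0 : 0 ≤ t ^ 2 := sq_nonneg t
  have hlow : (1 - 529111/10^6 : ℝ) ^ 50 * (1 - 729/250000) ≤ ∏ i ∈ range 51, (1 ^ 2 - W i) := by
    apply prod_lower (fun i => 1 ^ 2 - W i) _ _ (by norm_num) (by norm_num)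
    · simp only [W_zero]; norm_num
    · intro i hi
      have := (W_bounds i hi).2
      linarith
  have hup : ∏ i ∈ range 51, |t ^ 2 - W i| ≤ (529111/10^6 - t ^ 2) ^ 50 * |t ^ 2 - 729/250000| := by
    apply prod_upper (fun i => |t ^ 2 - W i|) _ _ (fun i _ => abs_nonneg _)
    · simp only [W_zero]; exact le_rfl
    · intro i hi
      obtain ⟨h1, h2⟩ := W_bounds i hi
      rw [abs_le]
      constructor
      · linarith
      · norm_num at h h1 h2 ⊢; linarith
  refine hup.trans (le_trans ?_ hlow)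
  have hp0 : (0:ℝ) ≤ 529111/10^6 - t ^ 2 := by norm_num at h ⊢; linarith
  rcases le_total (t ^ 2) (729/250000) with h1 | h1
  · calc (529111/10^6 - t ^ 2) ^ 50 * |t ^ 2 - 729/250000|
        ≤ (529111/10^6) ^ 50 * (729/250000) := by
          apply mul_le_mul
          · apply pow_le_pow_left₀ hp0; linarith
          · rw [abs_le]; constructor <;> linarith
          · exact abs_nonneg _
          · positivity
      _ ≤ (1 - 529111/10^6 : ℝ) ^ 50 * (1 - 729/250000) := by norm_num
  · rw [abs_of_nonneg (by linarith)]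
    refine (exp_trick (529111/10^6) (729/250000) (t ^ 2) (50 * ((529111/10^6 - 729/250000)/51))
      ((529111/10^6 - 729/250000)/51) (by norm_num) (by norm_num) hp0 (by ring) rfl).trans ?_
    norm_num

lemma condA : CondA 102 (QPoly 102 xs) := by
  intro k _ t ht1 ht2
  rw [deriv_eq, deriv_eq, Q_comp, Q_comp, abs_mul, abs_of_nonneg (by positivity)]
  apply mul_le_mul_of_nonneg_left _ (by positivity)
  rcases le_or_gt (58222/10^6) (t ^ 2) with h | h
  · exact dom_A t (abs_le.2 ⟨ht1.le, ht2.le⟩) h k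
  · rcases Nat.eq_zero_or_pos k with rfl | hk
    · exact caseB_zero t h
    · exact caseB_pos t h k hk

lemma aeval_Q (z : ℂ) : aeval z (QPoly 102 xs) = ∏ i ∈ range 51, (z ^ 2 - (W i : ℂ)) := by
  rw [Q_eq, map_prod]
  apply Finset.prod_congr rfl
  intro i _
  simp

lemma not_propD : ¬ PropD (QPoly 102 xs) := by
  intro hD
  have h := hD 0 (67/2000) (by norm_num) (by norm_num)
  rw [aeval_Q, aeval_Q, norm_prod, norm_prod] at h
  have h2 := pow_le_pow_left₀ (Finset.prod_nonneg fun i _ => norm_nonneg _) h 2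
  rw [← Finset.prod_pow, ← Finset.prod_pow] at h2
  have e1 : ∀ i, ‖(((0:ℝ):ℂ) + (((67/2000 : ℝ)) : ℂ) * Complex.I) ^ 2 - (W i : ℂ)‖ ^ 2 =
      (4489/4000000 + W i) ^ 2 := by
    intro i
    rw [← Complex.normSq_eq_norm_sq, Complex.normSq_apply]
    simp [pow_two]
    ring
  have e2 : ∀ i, ‖((1:ℂ) + (((67/2000 : ℝ)) : ℂ) * Complex.I) ^ 2 - (W i : ℂ)‖ ^ 2 =
      (1 - W i) ^ 2 + 2 * (1 + W i) * (4489/4000000) + (4489/4000000) ^ 2 := by
    intro i
    rw [← Complex.normSq_eq_norm_sq, Complex.normSq_apply]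
    simp [pow_two]
    ring
  simp only [e1, e2] at h2
  have hl := prod_lower (fun i => (4489/4000000 + W i) ^ 2) ((4489/4000000 + 529110/10^6) ^ 2)
    ((4489/4000000 + 729/250000) ^ 2) (by norm_num) (by norm_num)
    (by simp only [W_zero]; exact le_rfl)
    (by
      intro i hi
      have := (W_bounds i hi).1
      apply pow_le_pow_left₀ (by norm_num)
      linarith)
  have hu := prod_upper (fun i => (1 - W i) ^ 2 + 2 * (1 + W i) * (4489/4000000) + (4489/4000000) ^ 2)
    ((1 - 529110/10^6) ^ 2 + 2 * (1 + 529111/10^6) * (4489/4000000) + (4489/4000000) ^ 2)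
    ((1 - 729/250000) ^ 2 + 2 * (1 + 729/250000) * (4489/4000000) + (4489/4000000) ^ 2)
    (by
      intro i hi
      have := (W_le i hi).1
      positivity)
    (by simp only [W_zero]; exact le_rfl)
    (by
      intro i hi
      obtain ⟨h3, h4⟩ := W_bounds i hi
      have h5 : (1 - W (i + 1)) ^ 2 ≤ (1 - 529110/10^6) ^ 2 := by
        apply pow_le_pow_left₀
        · norm_num at h4 ⊢; linarith
        · linarith
      have h6 : 2 * (1 + W (i + 1)) * (4489/4000000) ≤ 2 * (1 + 529111/10^6) * (4489/4000000) := by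
        nlinarith
      linarith)
  have hfin := hl.trans (h2.trans hu)
  norm_num at hfin

/-- **Disproof of Q1**: condition (a) does not imply property (D). -/
theorem result : ¬ ∀ (n : ℕ) (x : Fin n → ℝ), SymZeros n x → CondA n (QPoly n x) →
    PropD (QPoly n x) :=
  fun h => not_propD (h 102 xs xs_sym condA)

end Pool.Agent.Results.MP_1c7d4c_an.DerivativesDominated
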